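import Pool.Agent.L7h17.RS.Defs

set_option autoImplicit false

/-!
# Cutoff functions near negligible sets

Task S_CUT of the project RS of helper17: cutoff functions which are equal to one near a compact
set of vanishing `(2n-4)`-dimensional Hausdorff measure, with small second derivatives in the mean,
for all measures with the growth of a `(2n-2)`-dimensional measure.
-/

open Set Filter Topology MeasureTheory Metric
open scoped ContDiff ENNReal

noncomputable section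

namespace Pool.Agent.L7h89.RS

open Pool.Agent.L7h17.RS

variable {n : ℕ}

/-- the points of the integral grid -/
def gv (a : Fin n → ℤ × ℤ) : EC n := fun j => ⟨(a j).1, (a j).2⟩

lemma exists_grid (w : EC n) : ∃ a : Fin n → ℤ × ℤ, ‖w - gv a‖ ≤ 1 := by
  refine ⟨fun j => (round (w j).re, round (w j).im), ?_⟩
  rw [pi_norm_le_iff_of_nonneg zero_le_one]
  intro j
  refine (Complex.norm_le_abs_re_add_abs_im _).trans ?_
  have h1 := abs_sub_round (w j).re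
  have h2 := abs_sub_round (w j).im
  simp only [gv, Pi.sub_apply, Complex.sub_re, Complex.sub_im]
  linarith

lemma card_Icc_le (x : ℝ) : (Finset.Icc ⌈x - 3⌉ ⌊x + 3⌋).card ≤ 7 := by
  rw [Int.card_Icc]
  have h1 : ((⌊x + 3⌋ : ℤ) : ℝ) ≤ x + 3 := Int.floor_le _
  have h2 : x - 3 ≤ ((⌈x - 3⌉ : ℤ) : ℝ) := Int.le_ceil _
  have h3 : ((⌊x + 3⌋ - ⌈x - 3⌉ : ℤ) : ℝ) ≤ 6 := by push_cast; linarith
  have h4 : (⌊x + 3⌋ - ⌈x - 3⌉ : ℤ) ≤ 6 := by exact_mod_cast h3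
  omega

lemma card_le (w : EC n) (A : Finset (Fin n → ℤ × ℤ)) (hA : ∀ a ∈ A, ‖w - gv a‖ ≤ 3) :
    A.card ≤ 49 ^ n := by
  have hsub : A ⊆ Fintype.piFinset (fun j : Fin n =>
      Finset.Icc ⌈(w j).re - 3⌉ ⌊(w j).re + 3⌋ ×ˢ Finset.Icc ⌈(w j).im - 3⌉ ⌊(w j).im + 3⌋) := by
    intro a ha
    rw [Fintype.mem_piFinset]
    intro j
    have h := (norm_le_pi_norm (w - gv a) j).trans (hA a ha)
    have h1 := abs_le.1 ((Complex.abs_re_le_norm _).trans h)
    have h2 := abs_le.1 ((Complex.abs_im_le_norm _).trans h)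
    simp only [gv, Pi.sub_apply, Complex.sub_re, Complex.sub_im] at h1 h2
    rw [Finset.mem_product, Finset.mem_Icc, Finset.mem_Icc]
    refine ⟨⟨Int.ceil_le.2 ?_, Int.le_floor.2 ?_⟩, ⟨Int.ceil_le.2 ?_, Int.le_floor.2 ?_⟩⟩ <;>
      linarith
  refine (Finset.card_le_card hsub).trans ?_
  rw [Fintype.card_piFinset]
  calc ∏ j : Fin n, (Finset.Icc ⌈(w j).re - 3⌉ ⌊(w j).re + 3⌋ ×ˢ
        Finset.Icc ⌈(w j).im - 3⌉ ⌊(w j).im + 3⌋).card ≤ ∏ _j : Fin n, 49 := by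
        refine Finset.prod_le_prod' fun j _ => ?_
        rw [Finset.card_product]
        exact Nat.mul_le_mul (card_Icc_le _) (card_Icc_le _)
    _ = 49 ^ n := by simp

lemma sum_sq (z : EC n) (A : Finset (ℕ × (Fin n → ℤ × ℤ)))
    (hA : ∀ i ∈ A, ‖(2 : ℝ) ^ i.1 • z - gv i.2‖ ≤ 3) :
    (∑ i ∈ A, (2 : ℝ) ^ i.1) ^ 2 ≤ 4 * (49 ^ n) ^ 2 * ∑ i ∈ A, (4 : ℝ) ^ i.1 := by
  classical
  rcases A.eq_empty_or_nonempty with rfl | hne
  · simp
  obtain ⟨m, hm, hmax⟩ := Finset.exists_max_image A (fun i => i.1) hne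
  have h1 : ∑ i ∈ A, (2 : ℝ) ^ i.1 ≤ 49 ^ n * (2 * 2 ^ m.1) := by
    have e1 : ∑ i ∈ A, (2 : ℝ) ^ i.1 =
        ∑ k ∈ Finset.range (m.1 + 1), ∑ i ∈ A with i.1 = k, (2 : ℝ) ^ i.1 := by
      symm
      refine Finset.sum_fiberwise_of_maps_to (fun i hi => ?_) _
      rw [Finset.mem_range]
      have := hmax i hi
      omega
    rw [e1]
    calc ∑ k ∈ Finset.range (m.1 + 1), ∑ i ∈ A with i.1 = k, (2 : ℝ) ^ i.1
        ≤ ∑ k ∈ Finset.range (m.1 + 1), 49 ^ n * (2 : ℝ) ^ k := by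
          refine Finset.sum_le_sum fun k _ => ?_
          have e2 : ∑ i ∈ A with i.1 = k, (2 : ℝ) ^ i.1 = ∑ i ∈ A with i.1 = k, (2 : ℝ) ^ k :=
            Finset.sum_congr rfl fun i hi => by rw [(Finset.mem_filter.1 hi).2]
          rw [e2, Finset.sum_const, nsmul_eq_mul]
          gcongr
          have hinj : Set.InjOn (fun i : ℕ × (Fin n → ℤ × ℤ) => i.2)
              (A.filter (fun i => i.1 = k) : Finset _) := by
            intro i hi j hj hij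
            have hi' := (Finset.mem_filter.1 (Finset.mem_coe.1 hi)).2
            have hj' := (Finset.mem_filter.1 (Finset.mem_coe.1 hj)).2
            exact Prod.ext (hi'.trans hj'.symm) hij
          rw [← Finset.card_image_of_injOn hinj]
          have := card_le ((2 : ℝ) ^ k • z) ((A.filter (fun i => i.1 = k)).image (fun i => i.2)) (by
            intro a ha
            obtain ⟨i, hi, rfl⟩ := Finset.mem_image.1 ha
            obtain ⟨hi1, rfl⟩ := Finset.mem_filter.1 hi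
            exact hA i hi1)
          exact_mod_cast this
      _ = 49 ^ n * ∑ k ∈ Finset.range (m.1 + 1), (2 : ℝ) ^ k := by rw [Finset.mul_sum]
      _ ≤ 49 ^ n * (2 * 2 ^ m.1) := by
          gcongr
          rw [geom_sum_eq (by norm_num)]
          rw [pow_succ]
          have : (0 : ℝ) < 2 ^ m.1 := by positivity
          rw [div_le_iff₀ (by norm_num)]
          nlinarith
  have h2 : (4 : ℝ) ^ m.1 ≤ ∑ i ∈ A, (4 : ℝ) ^ i.1 :=
    Finset.single_le_sum (f := fun i : ℕ × (Fin n → ℤ × ℤ) => (4 : ℝ) ^ i.1)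
      (fun i _ => by positivity) hm
  have h0 : 0 ≤ ∑ i ∈ A, (2 : ℝ) ^ i.1 := Finset.sum_nonneg fun i _ => by positivity
  calc (∑ i ∈ A, (2 : ℝ) ^ i.1) ^ 2 ≤ (49 ^ n * (2 * 2 ^ m.1)) ^ 2 := by gcongr
    _ = 4 * (49 ^ n) ^ 2 * (4 : ℝ) ^ m.1 := by
        have : (4 : ℝ) ^ m.1 = (2 ^ m.1) ^ 2 := by
          rw [← pow_mul, mul_comm, pow_mul]; norm_num
        rw [this]; ring
    _ ≤ _ := by gcongr

/-! ### The covering -/

lemma cover0 {X : Type*} [EMetricSpace X] [MeasurableSpace X] [BorelSpace X] {K : Set X} {d : ℝ}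
    (h : μH[d] K = 0) {r δ : ℝ≥0∞} (hr : 0 < r) (hδ : 0 < δ) :
    ∃ t : ℕ → Set X, K ⊆ ⋃ m, t m ∧ (∀ m, ediam (t m) ≤ r) ∧
      ∑' m, ⨆ _ : (t m).Nonempty, ediam (t m) ^ d < δ := by
  rw [Measure.hausdorffMeasure_apply] at h
  have h1 := (ENNReal.iSup_eq_zero.1 h) r
  have h2 := (ENNReal.iSup_eq_zero.1 h1) hr
  rw [← h2] at hδ
  obtain ⟨t, ht⟩ := iInf_lt_iff.1 hδ
  obtain ⟨ht1, ht⟩ := iInf_lt_iff.1 ht
  obtain ⟨ht2, ht⟩ := iInf_lt_iff.1 ht
  exact ⟨t, ht1, ht2, ht⟩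


lemma exists_level {s : ℝ} (h0 : 0 < s) (h1 : s ≤ 1 / 2) :
    ∃ k : ℕ, (2 : ℝ) ^ k * s ≤ 1 / 2 ∧ (1 / 2 : ℝ) ^ k ≤ 4 * s := by
  have hx : 1 ≤ 1 / (2 * s) := by
    rw [le_div_iff₀ (by positivity)]; linarith
  obtain ⟨k, hk1, hk2⟩ := exists_nat_pow_near hx (one_lt_two)
  refine ⟨k, ?_, ?_⟩
  · rw [le_div_iff₀ (by positivity)] at hk1
    linarith
  · rw [div_lt_iff₀ (by positivity)] at hk2
    rw [pow_succ] at hk2
    rw [one_div, inv_pow, inv_le_iff_one_le_mul₀ (by positivity)]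
    nlinarith

lemma cover_fin (hn : 3 ≤ n) {K : Set (EC n)} (hK : Negl K) {ε δ : ℝ} (hε : 0 < ε) (hδ : 0 < δ) :
    ∃ F : Finset (ℕ × (Fin n → ℤ × ℤ)),
      (∀ i ∈ F, (1 / 2 : ℝ) ^ i.1 ≤ ε ∧ ∃ p ∈ K, ‖(2 : ℝ) ^ i.1 • p - gv i.2‖ ≤ 1) ∧
      (∀ z ∈ K, ∃ i ∈ F, ‖(2 : ℝ) ^ i.1 • z - gv i.2‖ < 2) ∧
      ∑ i ∈ F, ((1 / 2 : ℝ) ^ i.1) ^ (2 * n - 4) ≤ δ := by
  classical
  obtain ⟨hKc, hK0⟩ := hK
  set d : ℕ := 2 * n - 4 with hd
  have hdreal : 2 * (n : ℝ) - 4 = (d : ℝ) := by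
    rw [hd, Nat.cast_sub (by omega)]; push_cast; ring
  have hd1 : d ≠ 0 := by omega
  rw [hdreal] at hK0
  set r₀ : ℝ := min (ε / 4) (1 / 2) with hr₀
  have hr0 : 0 < r₀ := by positivity
  set δ₁ : ℝ := δ / (2 * 4 ^ d) with hδ₁
  have hδ1 : 0 < δ₁ := by positivity
  obtain ⟨t, ht1, ht2, ht3⟩ := cover0 hK0 (ENNReal.ofReal_pos.2 hr0) (ENNReal.ofReal_pos.2 hδ1)
  set D : ℕ → ℝ := fun m => (ediam (t m)).toReal with hD
  set e : ℕ → ℝ := fun m => min r₀ (δ₁ * (1 / 2) ^ (m + 1)) with he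
  set s : ℕ → ℝ := fun m => max (D m) (e m) with hs
  have hne : ∀ m, ediam (t m) ≠ ⊤ := fun m => ne_top_of_le_ne_top ENNReal.ofReal_ne_top (ht2 m)
  have hD0 : ∀ m, 0 ≤ D m := fun m => ENNReal.toReal_nonneg
  have hDr : ∀ m, D m ≤ r₀ := fun m => ENNReal.toReal_le_of_le_ofReal hr0.le (ht2 m)
  have he0 : ∀ m, 0 < e m := fun m => by simp only [he]; positivity
  have hs0 : ∀ m, 0 < s m := fun m => lt_of_lt_of_le (he0 m) (le_max_right _ _)
  have hsr : ∀ m, s m ≤ r₀ := fun m => max_le (hDr m) (min_le_left _ _)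
  have hlev : ∀ m, ∃ i : ℕ × (Fin n → ℤ × ℤ), (t m ∩ K).Nonempty →
      (2 : ℝ) ^ i.1 * s m ≤ 1 / 2 ∧ (1 / 2 : ℝ) ^ i.1 ≤ 4 * s m ∧
      ∃ p ∈ t m ∩ K, ‖(2 : ℝ) ^ i.1 • p - gv i.2‖ ≤ 1 := by
    intro m
    by_cases hP : (t m ∩ K).Nonempty
    · obtain ⟨p, hp⟩ := hP
      obtain ⟨k, hk1, hk2⟩ := exists_level (hs0 m) ((hsr m).trans (min_le_right _ _))
      obtain ⟨a, ha⟩ := exists_grid ((2 : ℝ) ^ k • p)
      exact ⟨(k, a), fun _ => ⟨hk1, hk2, p, hp, ha⟩⟩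
    · exact ⟨(0, fun _ => (0, 0)), fun h => (hP h).elim⟩
  choose i hi using hlev
  set B : ℕ → Set (EC n) := fun m => {z | (t m ∩ K).Nonempty ∧
    ‖(2 : ℝ) ^ (i m).1 • z - gv (i m).2‖ < 2} with hB
  have hBo : ∀ m, IsOpen (B m) := by
    intro m
    by_cases hP : (t m ∩ K).Nonempty
    · simp only [hB, hP, true_and]
      exact isOpen_lt (by fun_prop) continuous_const
    · simp only [hB, hP, false_and, Set.ofPred_false, isOpen_empty]
  have hBc : K ⊆ ⋃ m, B m := by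
    intro z hz
    obtain ⟨m, hm⟩ := mem_iUnion.1 (ht1 hz)
    refine mem_iUnion.2 ⟨m, ⟨z, hm, hz⟩, ?_⟩
    obtain ⟨h1, -, p, hp, h2⟩ := hi m ⟨z, hm, hz⟩
    have h3 : ‖z - p‖ ≤ s m := by
      rw [← dist_eq_norm]
      have h4 := edist_le_ediam_of_mem hm hp.1
      have h5 : dist z p ≤ D m := by
        rw [dist_edist]
        exact ENNReal.toReal_mono (hne m) h4
      exact h5.trans (le_max_left _ _)
    have h6 : (2 : ℝ) ^ (i m).1 • z - gv (i m).2 =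
        (2 : ℝ) ^ (i m).1 • (z - p) + ((2 : ℝ) ^ (i m).1 • p - gv (i m).2) := by
      rw [smul_sub]; abel
    rw [h6]
    refine (norm_add_le _ _).trans_lt ?_
    rw [norm_smul, Real.norm_of_nonneg (by positivity)]
    have h7 : (2 : ℝ) ^ (i m).1 * ‖z - p‖ ≤ (2 : ℝ) ^ (i m).1 * s m := by gcongr
    linarith
  obtain ⟨M, hM⟩ := hKc.elim_finite_subcover B hBo hBc
  set M' := M.filter (fun m => (t m ∩ K).Nonempty) with hM'
  refine ⟨M'.image i, ?_, ?_, ?_⟩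
  · intro j hj
    obtain ⟨m, hm, rfl⟩ := Finset.mem_image.1 hj
    obtain ⟨-, h2, p, hp, h3⟩ := hi m (Finset.mem_filter.1 hm).2
    refine ⟨?_, p, hp.2, h3⟩
    have := (hsr m).trans (min_le_left _ _)
    linarith
  · intro z hz
    obtain ⟨m, hm, hzm⟩ := mem_iUnion₂.1 (hM hz)
    exact ⟨i m, Finset.mem_image.2 ⟨m, Finset.mem_filter.2 ⟨hm, hzm.1⟩, rfl⟩, hzm.2⟩
  · have h1 : ∑ j ∈ M'.image i, ((1 / 2 : ℝ) ^ j.1) ^ d ≤ ∑ m ∈ M', ((1 / 2 : ℝ) ^ (i m).1) ^ d := by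
      rw [Finset.sum_comp (fun j : ℕ × (Fin n → ℤ × ℤ) => ((1 / 2 : ℝ) ^ j.1) ^ d) i]
      refine Finset.sum_le_sum fun b hb => ?_
      rw [nsmul_eq_mul]
      obtain ⟨m, hm, hmb⟩ := Finset.mem_image.1 hb
      have hc : (1 : ℝ) ≤ ((M'.filter (fun a => i a = b)).card : ℝ) := by
        exact_mod_cast Finset.card_pos.2 ⟨m, Finset.mem_filter.2 ⟨hm, hmb⟩⟩
      have h0 : 0 ≤ ((1 / 2 : ℝ) ^ b.1) ^ d := by positivity
      nlinarith
    have h2 : ∀ m ∈ M', ((1 / 2 : ℝ) ^ (i m).1) ^ d ≤ 4 ^ d * (D m ^ d + e m ^ d) := by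
      intro m hm
      obtain ⟨-, h2, -⟩ := hi m (Finset.mem_filter.1 hm).2
      calc ((1 / 2 : ℝ) ^ (i m).1) ^ d ≤ (4 * s m) ^ d := by gcongr
        _ = 4 ^ d * s m ^ d := mul_pow _ _ _
        _ ≤ 4 ^ d * (D m ^ d + e m ^ d) := by
            gcongr
            rcases le_total (D m) (e m) with h | h
            · simp only [hs, max_eq_right h]
              have := pow_nonneg (hD0 m) d
              linarith
            · simp only [hs, max_eq_left h]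
              have := pow_nonneg (he0 m).le d
              linarith
    have h3 : ∑ m ∈ M', D m ^ d ≤ δ₁ := by
      have h4 : ENNReal.ofReal (∑ m ∈ M', D m ^ d) < ENNReal.ofReal δ₁ := by
        rw [ENNReal.ofReal_sum_of_nonneg fun m _ => pow_nonneg (hD0 m) d]
        refine lt_of_le_of_lt ?_ ht3
        calc ∑ m ∈ M', ENNReal.ofReal (D m ^ d)
            = ∑ m ∈ M', ⨆ _ : (t m).Nonempty, ediam (t m) ^ (d : ℝ) := by
              refine Finset.sum_congr rfl fun m hm => ?_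
              have hnm : (t m).Nonempty := (Finset.mem_filter.1 hm).2.mono inter_subset_left
              rw [iSup_pos hnm, ENNReal.rpow_natCast, ENNReal.ofReal_pow (hD0 m),
                ENNReal.ofReal_toReal (hne m)]
          _ ≤ _ := ENNReal.sum_le_tsum _
      exact ((ENNReal.ofReal_lt_ofReal_iff hδ1).1 h4).le
    have h4 : ∑ m ∈ M', e m ^ d ≤ δ₁ := by
      calc ∑ m ∈ M', e m ^ d ≤ ∑ m ∈ M', δ₁ * ((1 / 2) * (1 / 2) ^ m) := by
            refine Finset.sum_le_sum fun m _ => ?_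
            have h5 : e m ≤ 1 := ((min_le_left _ _).trans (min_le_right _ _)).trans (by norm_num)
            refine (pow_le_of_le_one (he0 m).le h5 hd1).trans ((min_le_right _ _).trans ?_)
            rw [pow_succ]; ring_nf; exact le_refl _
        _ ≤ ∑' m : ℕ, δ₁ * ((1 / 2) * (1 / 2 : ℝ) ^ m) := by
            refine Summable.sum_le_tsum _ (fun m _ => by positivity) ?_
            exact ((summable_geometric_of_lt_one (by norm_num) (by norm_num)).mul_left _).mul_left _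
        _ = δ₁ := by
            rw [tsum_mul_left, tsum_mul_left, tsum_geometric_of_lt_one (by norm_num) (by norm_num)]
            norm_num
    calc ∑ j ∈ M'.image i, ((1 / 2 : ℝ) ^ j.1) ^ d ≤ ∑ m ∈ M', ((1 / 2 : ℝ) ^ (i m).1) ^ d := h1
      _ ≤ ∑ m ∈ M', 4 ^ d * (D m ^ d + e m ^ d) := Finset.sum_le_sum h2
      _ = 4 ^ d * (∑ m ∈ M', D m ^ d + ∑ m ∈ M', e m ^ d) := by
          rw [← Finset.mul_sum, Finset.sum_add_distrib]
      _ ≤ 4 ^ d * (δ₁ + δ₁) := by gcongr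
      _ = δ := by rw [hδ₁]; field_simp; ring

/-! ### The cutoff functions -/

lemma fderiv_scale {F : Type*} [NormedAddCommGroup F] [NormedSpace ℝ F] (H : EC n → F)
    (hH : Differentiable ℝ H) (c : ℝ) (v z : EC n) :
    fderiv ℝ (fun z => H (c • z - v)) z = c • fderiv ℝ H (c • z - v) := by
  have h1 : HasFDerivAt (fun z : EC n => c • z - v) (c • ContinuousLinearMap.id ℝ (EC n)) z :=
    ((hasFDerivAt_id z).const_smul c).sub_const v
  have h2 := ((hH (c • z - v)).hasFDerivAt.comp z h1).fderiv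
  have h3 : fderiv ℝ (fun z => H (c • z - v)) z =
      (fderiv ℝ H (c • z - v)).comp (c • ContinuousLinearMap.id ℝ (EC n)) := h2
  rw [h3]
  ext w
  simp

/-- a bump function with bounds for its derivatives -/
structure Bump (G : EC n → ℝ) (g : ℝ) : Prop where
  smooth : ContDiff ℝ ∞ G
  nonneg : ∀ x, 0 ≤ G x
  one : ∀ x, ‖x‖ ≤ 2 → G x = 1
  zero : ∀ x, 3 < ‖x‖ → G x = 0
  gpos : 0 ≤ g
  d1 : ∀ x, ‖fderiv ℝ G x‖ ≤ g
  d1z : ∀ x, 3 < ‖x‖ → fderiv ℝ G x = 0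
  d2 : ∀ x, ‖fderiv ℝ (fderiv ℝ G) x‖ ≤ g
  d2z : ∀ x, 3 < ‖x‖ → fderiv ℝ (fderiv ℝ G) x = 0

lemma Bump.of {G : EC n → ℝ} (hG : ContDiff ℝ ∞ G) (h0 : ∀ x, 0 ≤ G x)
    (h1 : ∀ x, ‖x‖ ≤ 2 → G x = 1) (hz : ∀ x, 3 < ‖x‖ → G x = 0) : ∃ g : ℝ, Bump G g := by
  have hd : ContDiff ℝ ∞ (fderiv ℝ G) := hG.fderiv_right (m := ∞) (by simp)
  have hd2 : ContDiff ℝ ∞ (fderiv ℝ (fderiv ℝ G)) := hd.fderiv_right (m := ∞) (by simp)
  have hz1 : ∀ x : EC n, 3 < ‖x‖ → fderiv ℝ G x = 0 := by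
    intro x hx
    have : G =ᶠ[𝓝 x] fun _ => 0 := by
      filter_upwards [(isOpen_lt continuous_const continuous_norm).mem_nhds hx] with y hy
      exact hz y hy
    rw [this.fderiv_eq]
    simp
  have hz2 : ∀ x : EC n, 3 < ‖x‖ → fderiv ℝ (fderiv ℝ G) x = 0 := by
    intro x hx
    have : fderiv ℝ G =ᶠ[𝓝 x] fun _ => 0 := by
      filter_upwards [(isOpen_lt continuous_const continuous_norm).mem_nhds hx] with y hy
      exact hz1 y hy
    rw [this.fderiv_eq]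
    simp
  have e1 : Continuous (fun x => ‖fderiv ℝ G x‖) :=
    (continuous_norm (E := EC n →L[ℝ] ℝ)).comp hd.continuous
  have e2 : Continuous (fun x => ‖fderiv ℝ (fderiv ℝ G) x‖) :=
    (continuous_norm (E := EC n →L[ℝ] EC n →L[ℝ] ℝ)).comp hd2.continuous
  obtain ⟨g1, hg1⟩ := (isCompact_closedBall (0 : EC n) 3).exists_bound_of_continuousOn
    e1.continuousOn
  obtain ⟨g2, hg2⟩ := (isCompact_closedBall (0 : EC n) 3).exists_bound_of_continuousOn
    e2.continuousOn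
  refine ⟨max (max g1 g2) 0, hG, h0, h1, hz, le_max_right _ _, fun x => ?_, hz1, fun x => ?_, hz2⟩
  · rcases le_or_gt ‖x‖ 3 with hx | hx
    · have := hg1 x (mem_closedBall_zero_iff.2 hx)
      rw [norm_norm] at this
      exact this.trans ((le_max_left _ _).trans (le_max_left _ _))
    · rw [hz1 x hx]
      simp
  · rcases le_or_gt ‖x‖ 3 with hx | hx
    · have := (Real.le_norm_self _).trans (hg2 x (mem_closedBall_zero_iff.2 hx))
      exact this.trans ((le_max_right _ _).trans (le_max_left _ _))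
    · rw [hz2 x hx]
      exact (norm_zero (E := EC n →L[ℝ] EC n →L[ℝ] ℝ)).le.trans (le_max_right _ _)

lemma exists_bump (n : ℕ) : ∃ (G : EC n → ℝ) (g : ℝ), Bump G g := by
  let b : ContDiffBump (0 : EC n) := ⟨2, 3, by norm_num, by norm_num⟩
  have h1 : ContDiff ℝ ∞ b := b.contDiff
  refine ⟨b, Bump.of h1 (fun x => b.nonneg) (fun x hx => b.one_of_mem_closedBall ?_)
    (fun x hx => b.zero_of_le_dist ?_)⟩
  · rw [mem_closedBall_zero_iff]
    exact hx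
  · rw [dist_zero_right]
    exact hx.le

variable (G : EC n → ℝ)

/-- the bump function of a grid cube -/
def ps (i : ℕ × (Fin n → ℤ × ℤ)) (z : EC n) : ℝ := G ((2 : ℝ) ^ i.1 • z - gv i.2)

/-- the sum of the bump functions -/
def SS (F : Finset (ℕ × (Fin n → ℤ × ℤ))) (z : EC n) : ℝ := ∑ i ∈ F, ps G i z

/-- the set on which the bump function of a grid cube does not vanish -/
def UU (i : ℕ × (Fin n → ℤ × ℤ)) : Set (EC n) := {z | ‖(2 : ℝ) ^ i.1 • z - gv i.2‖ ≤ 3}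

variable {G} {g : ℝ}

lemma ps_smooth (hG : Bump G g) (i : ℕ × (Fin n → ℤ × ℤ)) : ContDiff ℝ ∞ (ps G i) := by
  have h : ContDiff ℝ ∞ (fun z : EC n => (2 : ℝ) ^ i.1 • z - gv i.2) := by fun_prop
  exact hG.smooth.comp h

lemma SS_smooth (hG : Bump G g) (F : Finset (ℕ × (Fin n → ℤ × ℤ))) : ContDiff ℝ ∞ (SS G F) := by
  unfold SS
  exact ContDiff.sum fun i _ => ps_smooth hG i

lemma fderiv_ps (hG : Bump G g) (i : ℕ × (Fin n → ℤ × ℤ)) :
    fderiv ℝ (ps G i) = fun z => (2 : ℝ) ^ i.1 • fderiv ℝ G ((2 : ℝ) ^ i.1 • z - gv i.2) := by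
  funext z
  exact fderiv_scale G (hG.smooth.differentiable (by simp)) _ _ _

lemma fderiv_ps2 (hG : Bump G g) (i : ℕ × (Fin n → ℤ × ℤ)) (z : EC n) :
    fderiv ℝ (fderiv ℝ (ps G i)) z =
      (4 : ℝ) ^ i.1 • fderiv ℝ (fderiv ℝ G) ((2 : ℝ) ^ i.1 • z - gv i.2) := by
  have hd : Differentiable ℝ (fderiv ℝ G) :=
    (hG.smooth.fderiv_right (m := ∞) (by simp)).differentiable (by simp)
  have hd1 : Differentiable ℝ (fun z : EC n => fderiv ℝ G ((2 : ℝ) ^ i.1 • z - gv i.2)) := by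
    have h : Differentiable ℝ (fun z : EC n => (2 : ℝ) ^ i.1 • z - gv i.2) := by fun_prop
    exact hd.comp h
  rw [fderiv_ps hG]
  have h2 : fderiv ℝ (fun z => (2 : ℝ) ^ i.1 • fderiv ℝ G ((2 : ℝ) ^ i.1 • z - gv i.2)) z =
      (2 : ℝ) ^ i.1 • fderiv ℝ (fun z => fderiv ℝ G ((2 : ℝ) ^ i.1 • z - gv i.2)) z :=
    fderiv_fun_const_smul (hd1 z) _
  rw [h2, fderiv_scale (fderiv ℝ G) hd, smul_smul, ← mul_pow]
  norm_num

lemma exists_bounds_st : ∃ c : ℝ, 0 ≤ c ∧ (∀ t, |deriv Real.smoothTransition t| ≤ c) ∧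
    (∀ t, |deriv (deriv Real.smoothTransition) t| ≤ c) := by
  have hs : ContDiff ℝ ∞ Real.smoothTransition := Real.smoothTransition.contDiff
  have hd : ContDiff ℝ ∞ (deriv Real.smoothTransition) := by
    rw [contDiff_infty_iff_deriv] at hs
    exact hs.2
  have hd2 : ContDiff ℝ ∞ (deriv (deriv Real.smoothTransition)) := by
    rw [contDiff_infty_iff_deriv] at hd
    exact hd.2
  have hc : HasCompactSupport (deriv Real.smoothTransition) := by
    refine HasCompactSupport.intro (isCompact_Icc (a := (0 : ℝ)) (b := 1)) fun t ht => ?_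
    rw [mem_Icc, not_and_or, not_le, not_le] at ht
    rcases ht with ht | ht
    · have : Real.smoothTransition =ᶠ[𝓝 t] fun _ => 0 := by
        filter_upwards [Iio_mem_nhds ht] with u hu
        exact Real.smoothTransition.zero_of_nonpos (le_of_lt hu)
      rw [this.deriv_eq]; simp
    · have : Real.smoothTransition =ᶠ[𝓝 t] fun _ => 1 := by
        filter_upwards [Ioi_mem_nhds ht] with u hu
        exact Real.smoothTransition.one_of_one_le (le_of_lt hu)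
      rw [this.deriv_eq]; simp
  obtain ⟨c1, h1⟩ := hc.exists_bound_of_continuous hd.continuous
  obtain ⟨c2, h2⟩ := hc.deriv.exists_bound_of_continuous hd2.continuous
  exact ⟨max c1 c2, (norm_nonneg _).trans ((h1 0).trans (le_max_left _ _)),
    fun x => (h1 x).trans (le_max_left _ _), fun x => (h2 x).trans (le_max_right _ _)⟩

variable (G) in
/-- the cutoff function -/
def ch (F : Finset (ℕ × (Fin n → ℤ × ℤ))) (z : EC n) : ℝ := Real.smoothTransition (SS G F z)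

lemma ch_smooth (hG : Bump G g) (F : Finset (ℕ × (Fin n → ℤ × ℤ))) : ContDiff ℝ ∞ (ch G F) :=
  (Real.smoothTransition.contDiff (n := ⊤)).comp (SS_smooth hG F)

lemma fderiv_ch (hG : Bump G g) (F : Finset (ℕ × (Fin n → ℤ × ℤ))) :
    fderiv ℝ (ch G F) = fun z => deriv Real.smoothTransition (SS G F z) • fderiv ℝ (SS G F) z := by
  funext z
  have hs : ContDiff ℝ ∞ Real.smoothTransition := Real.smoothTransition.contDiff
  have h1 : HasDerivAt Real.smoothTransition (deriv Real.smoothTransition (SS G F z)) (SS G F z) :=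
    (hs.differentiable (by simp) _).hasDerivAt
  have h2 : HasFDerivAt (SS G F) (fderiv ℝ (SS G F) z) z :=
    ((SS_smooth hG F).differentiable (by simp) z).hasFDerivAt
  exact (h1.comp_hasFDerivAt z h2).fderiv

lemma norm_fderiv2_ch (hG : Bump G g) (F : Finset (ℕ × (Fin n → ℤ × ℤ))) (z : EC n) :
    ‖fderiv ℝ (fderiv ℝ (ch G F)) z‖ ≤ |deriv Real.smoothTransition (SS G F z)| *
        ‖fderiv ℝ (fderiv ℝ (SS G F)) z‖ +
      |deriv (deriv Real.smoothTransition) (SS G F z)| * ‖fderiv ℝ (SS G F) z‖ ^ 2 := by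
  have hs : ContDiff ℝ ∞ Real.smoothTransition := Real.smoothTransition.contDiff
  have hd : ContDiff ℝ ∞ (deriv Real.smoothTransition) := by
    rw [contDiff_infty_iff_deriv] at hs
    exact hs.2
  have h1 : HasDerivAt (deriv Real.smoothTransition)
      (deriv (deriv Real.smoothTransition) (SS G F z)) (SS G F z) :=
    (hd.differentiable (by simp) _).hasDerivAt
  have h2 : HasFDerivAt (SS G F) (fderiv ℝ (SS G F) z) z :=
    ((SS_smooth hG F).differentiable (by simp) z).hasFDerivAt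
  have h3 : HasFDerivAt (fderiv ℝ (SS G F)) (fderiv ℝ (fderiv ℝ (SS G F)) z) z :=
    (((SS_smooth hG F).fderiv_right (m := ∞) (by simp)).differentiable (by simp) z).hasFDerivAt
  have h4 := (h1.comp_hasFDerivAt z h2).smul h3
  rw [fderiv_ch hG]
  have h5 := h4.fderiv
  have h6 : fderiv ℝ (fun z => deriv Real.smoothTransition (SS G F z) • fderiv ℝ (SS G F) z) z =
      deriv Real.smoothTransition (SS G F z) • fderiv ℝ (fderiv ℝ (SS G F)) z +
        (deriv (deriv Real.smoothTransition) (SS G F z) • fderiv ℝ (SS G F) z).smulRight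
          (fderiv ℝ (SS G F) z) := h5
  rw [h6]
  have h7 := norm_add_le (E := EC n →L[ℝ] EC n →L[ℝ] ℝ)
    (deriv Real.smoothTransition (SS G F z) • fderiv ℝ (fderiv ℝ (SS G F)) z)
    ((deriv (deriv Real.smoothTransition) (SS G F z) • fderiv ℝ (SS G F) z).smulRight
          (fderiv ℝ (SS G F) z))
  refine h7.trans (add_le_add ?_ ?_)
  · exact ContinuousLinearMap.opNorm_smul_le (deriv Real.smoothTransition (SS G F z))
      (fderiv ℝ (fderiv ℝ (SS G F)) z)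
  · rw [ContinuousLinearMap.norm_smulRight_apply, norm_smul, Real.norm_eq_abs]
    rw [sq, mul_assoc]

lemma fderiv_SS (hG : Bump G g) (F : Finset (ℕ × (Fin n → ℤ × ℤ))) :
    fderiv ℝ (SS G F) = fun z => ∑ i ∈ F, fderiv ℝ (ps G i) z := by
  funext z
  exact fderiv_fun_sum fun i _ => (ps_smooth hG i).differentiable (by simp) z

lemma fderiv_SS2 (hG : Bump G g) (F : Finset (ℕ × (Fin n → ℤ × ℤ))) (z : EC n) :
    fderiv ℝ (fderiv ℝ (SS G F)) z = ∑ i ∈ F, fderiv ℝ (fderiv ℝ (ps G i)) z := by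
  rw [fderiv_SS hG]
  exact fderiv_fun_sum fun i _ =>
    ((ps_smooth hG i).fderiv_right (m := ∞) (by simp)).differentiable (by simp) z

open Classical in
lemma norm_fderiv_SS (hG : Bump G g) (F : Finset (ℕ × (Fin n → ℤ × ℤ))) (z : EC n) :
    ‖fderiv ℝ (SS G F) z‖ ≤ g * ∑ i ∈ F with z ∈ UU i, (2 : ℝ) ^ i.1 := by
  rw [fderiv_SS hG, Finset.mul_sum]
  refine (norm_sum_le (E := EC n →L[ℝ] ℝ) _ _).trans ?_
  rw [Finset.sum_filter]
  refine Finset.sum_le_sum fun i _ => ?_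
  rw [fderiv_ps hG]
  split_ifs with h
  · rw [norm_smul, Real.norm_of_nonneg (by positivity), mul_comm]
    gcongr
    exact hG.d1 _
  · have h1 : 3 < ‖(2 : ℝ) ^ i.1 • z - gv i.2‖ := not_le.1 h
    simp only [hG.d1z _ h1, smul_zero, norm_zero, le_refl]

open Classical in
lemma norm_fderiv_SS2 (hG : Bump G g) (F : Finset (ℕ × (Fin n → ℤ × ℤ))) (z : EC n) :
    ‖fderiv ℝ (fderiv ℝ (SS G F)) z‖ ≤ g * ∑ i ∈ F with z ∈ UU i, (4 : ℝ) ^ i.1 := by
  rw [fderiv_SS2 hG, Finset.mul_sum]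
  refine (norm_sum_le (E := EC n →L[ℝ] EC n →L[ℝ] ℝ) _ _).trans ?_
  rw [Finset.sum_filter]
  refine Finset.sum_le_sum fun i _ => ?_
  rw [fderiv_ps2 hG]
  split_ifs with h
  · refine (ContinuousLinearMap.opNorm_smul_le ((4 : ℝ) ^ i.1)
      (fderiv ℝ (fderiv ℝ G) ((2 : ℝ) ^ i.1 • z - gv i.2))).trans ?_
    rw [Real.norm_of_nonneg (by positivity), mul_comm]
    exact mul_le_mul_of_nonneg_right (hG.d2 _) (by positivity)
  · have h1 : 3 < ‖(2 : ℝ) ^ i.1 • z - gv i.2‖ := not_le.1 h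
    rw [hG.d2z _ h1]
    refine (ContinuousLinearMap.opNorm_smul_le ((4 : ℝ) ^ i.1)
      (0 : EC n →L[ℝ] EC n →L[ℝ] ℝ)).trans ?_
    have h2 : ‖(0 : EC n →L[ℝ] EC n →L[ℝ] ℝ)‖ = 0 := ContinuousLinearMap.opNorm_zero
    rw [h2, mul_zero]

lemma ps_zero (hG : Bump G g) {i : ℕ × (Fin n → ℤ × ℤ)} {z : EC n} (hz : z ∉ UU i) :
    ps G i z = 0 := hG.zero _ (not_le.1 hz)

lemma SS_zero (hG : Bump G g) {F : Finset (ℕ × (Fin n → ℤ × ℤ))} {z : EC n}
    (hz : ∀ i ∈ F, z ∉ UU i) : SS G F z = 0 :=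
  Finset.sum_eq_zero fun i hi => ps_zero hG (hz i hi)

open Classical in
lemma pointwise (hG : Bump G g) {c : ℝ} (hc0 : 0 ≤ c)
    (hc1 : ∀ t, |deriv Real.smoothTransition t| ≤ c)
    (hc2 : ∀ t, |deriv (deriv Real.smoothTransition) t| ≤ c)
    (F : Finset (ℕ × (Fin n → ℤ × ℤ))) (z : EC n) :
    |ch G F z| + ‖fderiv ℝ (ch G F) z‖ + ‖fderiv ℝ (fderiv ℝ (ch G F)) z‖ ≤
      (1 + c * g + (c * g + c * (g ^ 2 * (4 * (49 ^ n) ^ 2)))) *
        ∑ i ∈ F with z ∈ UU i, (4 : ℝ) ^ i.1 := by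
  set A := F.filter (fun i => z ∈ UU i) with hA
  have hg := hG.gpos
  have hS0 : 0 ≤ ∑ i ∈ A, (4 : ℝ) ^ i.1 := Finset.sum_nonneg fun i _ => by positivity
  have h1 : |ch G F z| ≤ ∑ i ∈ A, (4 : ℝ) ^ i.1 := by
    by_cases hz : ∃ i ∈ F, z ∈ UU i
    · obtain ⟨i, hi, hzi⟩ := hz
      have h2 : |ch G F z| ≤ 1 := by
        unfold ch
        rw [abs_of_nonneg (Real.smoothTransition.nonneg _)]
        exact Real.smoothTransition.le_one _
      refine h2.trans ((one_le_pow₀ (by norm_num : (1 : ℝ) ≤ 4) (n := i.1)).trans ?_)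
      exact Finset.single_le_sum (f := fun i : ℕ × (Fin n → ℤ × ℤ) => (4 : ℝ) ^ i.1)
        (fun i _ => by positivity) (Finset.mem_filter.2 ⟨hi, hzi⟩)
    · push Not at hz
      have : ch G F z = 0 := by
        unfold ch
        rw [SS_zero hG hz]
        exact Real.smoothTransition.zero_of_nonpos le_rfl
      rw [this, abs_zero]
      exact hS0
  have h24 : ∑ i ∈ A, (2 : ℝ) ^ i.1 ≤ ∑ i ∈ A, (4 : ℝ) ^ i.1 :=
    Finset.sum_le_sum fun i _ => by gcongr; norm_num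
  have h2 : ‖fderiv ℝ (ch G F) z‖ ≤ c * g * ∑ i ∈ A, (4 : ℝ) ^ i.1 := by
    rw [fderiv_ch hG, norm_smul, Real.norm_eq_abs, mul_assoc]
    refine mul_le_mul (hc1 _) ?_ (norm_nonneg _) hc0
    exact (norm_fderiv_SS hG F z).trans (mul_le_mul_of_nonneg_left h24 hg)
  have h3 : ‖fderiv ℝ (fderiv ℝ (ch G F)) z‖ ≤
      (c * g + c * (g ^ 2 * (4 * (49 ^ n) ^ 2))) * ∑ i ∈ A, (4 : ℝ) ^ i.1 := by
    refine (norm_fderiv2_ch hG F z).trans ?_
    have e1 : |deriv Real.smoothTransition (SS G F z)| * ‖fderiv ℝ (fderiv ℝ (SS G F)) z‖ ≤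
        c * (g * ∑ i ∈ A, (4 : ℝ) ^ i.1) := by
      refine mul_le_mul (hc1 _) (norm_fderiv_SS2 hG F z) ?_ hc0
      exact norm_nonneg (E := EC n →L[ℝ] EC n →L[ℝ] ℝ) _
    have e2 : ‖fderiv ℝ (SS G F) z‖ ^ 2 ≤
        g ^ 2 * (4 * (49 ^ n) ^ 2 * ∑ i ∈ A, (4 : ℝ) ^ i.1) := by
      calc ‖fderiv ℝ (SS G F) z‖ ^ 2 ≤ (g * ∑ i ∈ A, (2 : ℝ) ^ i.1) ^ 2 := by
            have := norm_fderiv_SS hG F z
            gcongr
        _ = g ^ 2 * (∑ i ∈ A, (2 : ℝ) ^ i.1) ^ 2 := by ring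
        _ ≤ _ := by
            gcongr
            exact sum_sq z A fun i hi => (Finset.mem_filter.1 hi).2
    have e3 : |deriv (deriv Real.smoothTransition) (SS G F z)| * ‖fderiv ℝ (SS G F) z‖ ^ 2 ≤
        c * (g ^ 2 * (4 * (49 ^ n) ^ 2 * ∑ i ∈ A, (4 : ℝ) ^ i.1)) :=
      mul_le_mul (hc2 _) e2 (by positivity) hc0
    calc _ ≤ c * (g * ∑ i ∈ A, (4 : ℝ) ^ i.1) +
          c * (g ^ 2 * (4 * (49 ^ n) ^ 2 * ∑ i ∈ A, (4 : ℝ) ^ i.1)) := add_le_add e1 e3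
      _ = _ := by ring
  calc _ ≤ ∑ i ∈ A, (4 : ℝ) ^ i.1 + c * g * ∑ i ∈ A, (4 : ℝ) ^ i.1 +
        (c * g + c * (g ^ 2 * (4 * (49 ^ n) ^ 2))) * ∑ i ∈ A, (4 : ℝ) ^ i.1 :=
        add_le_add (add_le_add h1 h2) h3
    _ = _ := by ring

lemma isClosed_UU (i : ℕ × (Fin n → ℤ × ℤ)) : IsClosed (UU i) :=
  isClosed_le (by fun_prop) continuous_const

lemma UU_sub (i : ℕ × (Fin n → ℤ × ℤ)) :
    UU i ⊆ {z | z - (1 / 2 : ℝ) ^ i.1 • gv i.2 ∈ Qc n (3 * (1 / 2) ^ i.1)} := by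
  intro z hz
  have h1 : z - (1 / 2 : ℝ) ^ i.1 • gv i.2 =
      (1 / 2 : ℝ) ^ i.1 • ((2 : ℝ) ^ i.1 • z - gv i.2) := by
    rw [smul_sub, smul_smul, ← mul_pow]; norm_num
  have h2 : ‖z - (1 / 2 : ℝ) ^ i.1 • gv i.2‖ ≤ 3 * (1 / 2) ^ i.1 := by
    rw [h1, norm_smul, Real.norm_of_nonneg (by positivity), mul_comm]
    have : ‖(2 : ℝ) ^ i.1 • z - gv i.2‖ ≤ 3 := hz
    gcongr
  intro j
  have h3 := (norm_le_pi_norm (z - (1 / 2 : ℝ) ^ i.1 • gv i.2) j).trans h2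
  exact ⟨(Complex.abs_re_le_norm _).trans h3, (Complex.abs_im_le_norm _).trans h3⟩

lemma lint (hn : 3 ≤ n) {B C : ℝ} (hB : 0 ≤ B) (hC : 0 ≤ C) (μ : Measure (EC n))
    (hμ : ∀ (c : EC n) (s : ℝ), 0 < s →
      μ {z | z - c ∈ Qc n s} ≤ ENNReal.ofReal (C * s ^ (2 * n - 2)))
    (F : Finset (ℕ × (Fin n → ℤ × ℤ))) (f : EC n → ℝ)
    (hf : ∀ z, f z ≤ B * ∑ i ∈ F, (UU i).indicator (fun _ => (4 : ℝ) ^ i.1) z) :
    ∫⁻ z, ENNReal.ofReal (f z) ∂μ ≤
      ENNReal.ofReal (B * C * 3 ^ (2 * n - 2) * ∑ i ∈ F, ((1 / 2 : ℝ) ^ i.1) ^ (2 * n - 4)) := by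
  calc ∫⁻ z, ENNReal.ofReal (f z) ∂μ
      ≤ ∫⁻ z, ∑ i ∈ F, (UU i).indicator (fun _ => ENNReal.ofReal (B * (4 : ℝ) ^ i.1)) z ∂μ := by
        refine lintegral_mono fun z => ?_
        refine (ENNReal.ofReal_le_ofReal (hf z)).trans ?_
        rw [Finset.mul_sum, ENNReal.ofReal_sum_of_nonneg]
        · refine Finset.sum_le_sum fun i _ => ?_
          by_cases h : z ∈ UU i
          · rw [indicator_of_mem h, indicator_of_mem h]
          · rw [indicator_of_notMem h, indicator_of_notMem h]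
            simp
        · intro i _
          exact mul_nonneg hB (indicator_nonneg (fun _ _ => by positivity) _)
    _ = ∑ i ∈ F, ∫⁻ z, (UU i).indicator (fun _ => ENNReal.ofReal (B * (4 : ℝ) ^ i.1)) z ∂μ := by
        refine lintegral_finsetSum _ fun i _ => ?_
        exact measurable_const.indicator (isClosed_UU i).measurableSet
    _ = ∑ i ∈ F, ENNReal.ofReal (B * (4 : ℝ) ^ i.1) * μ (UU i) := by
        refine Finset.sum_congr rfl fun i _ => ?_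
        rw [lintegral_indicator (isClosed_UU i).measurableSet, setLIntegral_const]
    _ ≤ ∑ i ∈ F, ENNReal.ofReal (B * C * 3 ^ (2 * n - 2) * ((1 / 2 : ℝ) ^ i.1) ^ (2 * n - 4)) := by
        refine Finset.sum_le_sum fun i _ => ?_
        have h1 : μ (UU i) ≤ ENNReal.ofReal (C * (3 * (1 / 2) ^ i.1) ^ (2 * n - 2)) :=
          (measure_mono (UU_sub i)).trans (hμ _ _ (by positivity))
        calc ENNReal.ofReal (B * (4 : ℝ) ^ i.1) * μ (UU i)
            ≤ ENNReal.ofReal (B * (4 : ℝ) ^ i.1) *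
              ENNReal.ofReal (C * (3 * (1 / 2) ^ i.1) ^ (2 * n - 2)) := by gcongr
          _ = ENNReal.ofReal (B * (4 : ℝ) ^ i.1 * (C * (3 * (1 / 2) ^ i.1) ^ (2 * n - 2))) := by
              rw [ENNReal.ofReal_mul (p := B * (4 : ℝ) ^ i.1) (by positivity)]
          _ = _ := by
              congr 1
              have e1 : 2 * n - 2 = (2 * n - 4) + 2 := by omega
              have e2 : (4 : ℝ) ^ i.1 * ((1 / 2 : ℝ) ^ i.1) ^ 2 = 1 := by
                rw [← pow_mul, mul_comm i.1 2, pow_mul, ← mul_pow]; norm_num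
              rw [mul_pow 3, e1, pow_add ((1 / 2 : ℝ) ^ i.1)]
              calc B * (4 : ℝ) ^ i.1 * (C * (3 ^ (2 * n - 4 + 2) *
                    (((1 / 2 : ℝ) ^ i.1) ^ (2 * n - 4) * ((1 / 2 : ℝ) ^ i.1) ^ 2))) =
                  B * C * 3 ^ (2 * n - 4 + 2) * ((1 / 2 : ℝ) ^ i.1) ^ (2 * n - 4) *
                    ((4 : ℝ) ^ i.1 * ((1 / 2 : ℝ) ^ i.1) ^ 2) := by ring
                _ = _ := by rw [e2, mul_one]
    _ = _ := by
        rw [← ENNReal.ofReal_sum_of_nonneg fun i _ => by positivity, Finset.mul_sum]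

/-- **Task S_CUT.** -/
theorem s_CUT : S_CUT := by
  classical
  intro n hn K hK μ C hC hμ W hW hKW η hη
  obtain ⟨G, g, hG⟩ := exists_bump n
  obtain ⟨c, hc0, hc1, hc2⟩ := exists_bounds_st
  have hg := hG.gpos
  obtain ⟨r, hr, hrW⟩ := hK.1.exists_thickening_subset_open hW hKW
  set B : ℝ := 1 + c * g + (c * g + c * (g ^ 2 * (4 * (49 ^ n) ^ 2))) with hB
  have hB0 : 0 ≤ B := by positivity
  set δ : ℝ := η / (B * C * 3 ^ (2 * n - 2) + 1) with hδ
  have hδ0 : 0 < δ := by positivity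
  obtain ⟨F, hF1, hF2, hF3⟩ := cover_fin hn hK (ε := r / 5) (δ := δ) (by positivity) hδ0
  have hone : ∀ z, (∃ i ∈ F, ‖(2 : ℝ) ^ i.1 • z - gv i.2‖ < 2) → ch G F z = 1 := by
    rintro z ⟨i, hi, hz⟩
    refine Real.smoothTransition.one_of_one_le ?_
    rw [← hG.one _ hz.le]
    exact Finset.single_le_sum (f := fun i => ps G i z) (fun i _ => hG.nonneg _) hi
  have hcl : IsClosed (⋃ i ∈ F, UU i) := isClosed_biUnion_finset fun i _ => isClosed_UU i
  have hsub : tsupport (ch G F) ⊆ ⋃ i ∈ F, UU i := by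
    refine closure_minimal (fun z hz => ?_) hcl
    by_contra h
    apply hz
    have h1 : ∀ i ∈ F, z ∉ UU i := fun i hi h2 => h (mem_iUnion₂.2 ⟨i, hi, h2⟩)
    show Real.smoothTransition (SS G F z) = 0
    rw [SS_zero hG h1]
    exact Real.smoothTransition.zero_of_nonpos le_rfl
  have hball : ∀ i ∈ F, ∃ p ∈ K, UU i ⊆ closedBall p (4 * (r / 5)) := by
    intro i hi
    obtain ⟨h1, p, hp, h2⟩ := hF1 i hi
    refine ⟨p, hp, fun z hz => ?_⟩
    rw [mem_closedBall, dist_eq_norm]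
    have h3 : z - p = (1 / 2 : ℝ) ^ i.1 •
        (((2 : ℝ) ^ i.1 • z - gv i.2) - ((2 : ℝ) ^ i.1 • p - gv i.2)) := by
      rw [sub_sub_sub_cancel_right, ← smul_sub, smul_smul, ← mul_pow]; norm_num
    rw [h3, norm_smul, Real.norm_of_nonneg (by positivity)]
    have h4 : ‖((2 : ℝ) ^ i.1 • z - gv i.2) - ((2 : ℝ) ^ i.1 • p - gv i.2)‖ ≤ 4 := by
      refine (norm_sub_le _ _).trans ?_
      have : ‖(2 : ℝ) ^ i.1 • z - gv i.2‖ ≤ 3 := hz
      linarith
    have h5 : (0 : ℝ) ≤ (1 / 2) ^ i.1 := by positivity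
    nlinarith [norm_nonneg (((2 : ℝ) ^ i.1 • z - gv i.2) - ((2 : ℝ) ^ i.1 • p - gv i.2))]
  refine ⟨ch G F, ch_smooth hG F, ?_, ?_, ?_, ?_, ?_⟩
  · refine IsCompact.of_isClosed_subset ?_ (isClosed_tsupport _) hsub
    refine F.isCompact_biUnion fun i hi => ?_
    obtain ⟨p, -, hp⟩ := hball i hi
    exact (isCompact_closedBall p _).of_isClosed_subset (isClosed_UU i) hp
  · refine hsub.trans fun z hz => hrW ?_
    obtain ⟨i, hi, hzi⟩ := mem_iUnion₂.1 hz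
    obtain ⟨p, hpK, hp⟩ := hball i hi
    rw [mem_thickening_iff]
    refine ⟨p, hpK, ?_⟩
    have := mem_closedBall.1 (hp hzi)
    linarith
  · exact fun z => ⟨Real.smoothTransition.nonneg _, Real.smoothTransition.le_one _⟩
  · refine ⟨⋃ i ∈ F, {z | ‖(2 : ℝ) ^ i.1 • z - gv i.2‖ < 2}, ?_, ?_, ?_⟩
    · exact isOpen_biUnion fun i _ => isOpen_lt (by fun_prop) continuous_const
    · intro z hz
      obtain ⟨i, hi, h⟩ := hF2 z hz
      exact mem_iUnion₂.2 ⟨i, hi, h⟩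
    · intro z hz
      obtain ⟨i, hi, h⟩ := mem_iUnion₂.1 hz
      exact hone z ⟨i, hi, h⟩
  · refine (lint hn hB0 hC μ hμ F _ fun z => ?_).trans (ENNReal.ofReal_le_ofReal ?_)
    · refine (pointwise hG hc0 hc1 hc2 F z).trans (le_of_eq ?_)
      rw [Finset.sum_filter]
      congr 1
    · have h1 : 0 ≤ B * C * 3 ^ (2 * n - 2) := by positivity
      calc B * C * 3 ^ (2 * n - 2) * ∑ i ∈ F, ((1 / 2 : ℝ) ^ i.1) ^ (2 * n - 4)
          ≤ B * C * 3 ^ (2 * n - 2) * δ := by gcongr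
        _ ≤ (B * C * 3 ^ (2 * n - 2) + 1) * δ := by nlinarith
        _ = η := by rw [hδ]; field_simp

end Pool.Agent.L7h89.RS
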