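import Pool.Agent.L7h89.RS.Cut

set_option autoImplicit false

/-!
# Null sets through negligible sets

Task S_NULL of the project RS of helper17: the union of the real three-dimensional coordinate planes
through the points of a compact set of vanishing `(2n-4)`-dimensional Hausdorff measure is a null
set.
-/

open Set Filter Topology MeasureTheory Metric
open scoped ContDiff ENNReal

noncomputable section

namespace Pool.Agent.L7h89.RS

open Pool.Agent.L7h17.RS

variable {n : ℕ}

lemma volume_rect (a b p q : ℝ) :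
    volume {z : ℂ | |z.re - a| ≤ p ∧ |z.im - b| ≤ q} = ENNReal.ofReal (2 * p) * ENNReal.ofReal (2 * q) := by
  have h1 : {z : ℂ | |z.re - a| ≤ p ∧ |z.im - b| ≤ q} =
      Complex.measurableEquivRealProd ⁻¹' (Icc (a - p) (a + p) ×ˢ Icc (b - q) (b + q)) := by
    ext z
    simp only [mem_ofPred_eq, mem_preimage, Complex.measurableEquivRealProd_apply, mem_prod, mem_Icc,
      abs_le]
    constructor
    · rintro ⟨⟨h1, h2⟩, h3, h4⟩
      exact ⟨⟨by linarith, by linarith⟩, by linarith, by linarith⟩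
    · rintro ⟨⟨h1, h2⟩, h3, h4⟩
      exact ⟨⟨by linarith, by linarith⟩, by linarith, by linarith⟩
  rw [h1, Complex.volume_preserving_equiv_real_prod.measure_preimage
    (measurableSet_Icc.prod measurableSet_Icc).nullMeasurableSet, Measure.volume_eq_prod,
    Measure.prod_prod, Real.volume_Icc, Real.volume_Icc]
  congr 2 <;> ring

lemma volume_boxes (a b p q : Fin n → ℝ) (hp : ∀ k, 0 ≤ p k) (hq : ∀ k, 0 ≤ q k) :
    volume {z : EC n | ∀ k, |(z k).re - a k| ≤ p k ∧ |(z k).im - b k| ≤ q k} =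
      ENNReal.ofReal (4 ^ n * (∏ k, p k) * ∏ k, q k) := by
  have h1 : {z : EC n | ∀ k, |(z k).re - a k| ≤ p k ∧ |(z k).im - b k| ≤ q k} =
      Set.pi univ (fun k => {z : ℂ | |z.re - a k| ≤ p k ∧ |z.im - b k| ≤ q k}) := by
    ext z; simp
  rw [h1, volume_pi_pi]
  simp only [volume_rect]
  have h2 : ∀ k, ENNReal.ofReal (2 * p k) * ENNReal.ofReal (2 * q k) =
      ENNReal.ofReal (4 * p k * q k) := by
    intro k
    rw [← ENNReal.ofReal_mul (by have := hp k; positivity)]
    congr 1; ring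
  simp only [h2]
  rw [← ENNReal.ofReal_prod_of_nonneg (fun k _ => by have := hp k; have := hq k; positivity)]
  congr 1
  rw [Finset.prod_mul_distrib, Finset.prod_mul_distrib]
  simp

/-- the union of the planes through the points of `K` -/
def PP (K : Set (EC n)) (j m : Fin n) : Set (EC n) :=
  {z : EC n | ∃ w ∈ K, ∃ (a : ℂ) (t : ℝ), z = w + a • ex j + t • ex m}

lemma null_box (hn : 3 ≤ n) {K : Set (EC n)} (hK : Negl K) {j m : Fin n} (hjm : j ≠ m) (M : ℝ)
    (hM : 0 ≤ M) : volume (PP K j m ∩ Qc n M) = 0 := by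
  classical
  set C : ℝ := 4 ^ n * (M ^ 2 * 2 ^ (n - 2)) * (M * 2 ^ (n - 1)) with hC
  have hC0 : 0 ≤ C := by positivity
  suffices h : ∀ δ : ℝ, 0 < δ → volume (PP K j m ∩ Qc n M) ≤ ENNReal.ofReal (C * δ) by
    refine le_antisymm (ENNReal.le_of_forall_pos_le_add ?_) bot_le
    intro ε hε _
    have := h (ε / (C + 1)) (by positivity)
    refine this.trans ?_
    rw [zero_add, ← ENNReal.ofReal_coe_nnreal]
    apply ENNReal.ofReal_le_ofReal
    have hε' : (0 : ℝ) < ε := by exact_mod_cast hε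
    rw [mul_div_assoc', div_le_iff₀ (by positivity)]
    nlinarith
  intro δ hδ
  obtain ⟨F, hF1, hF2, hF3⟩ := cover_fin hn hK one_pos hδ
  set B : ℕ × (Fin n → ℤ × ℤ) → Set (EC n) := fun i =>
    {z : EC n | ∀ k, |(z k).re - (if k ∈ ({j, m} : Finset (Fin n)) then 0 else
        (1 / 2 : ℝ) ^ i.1 * (gv i.2 k).re)| ≤
          (if k ∈ ({j, m} : Finset (Fin n)) then M else 2 * (1 / 2 : ℝ) ^ i.1) ∧
      |(z k).im - (if k ∈ ({j} : Finset (Fin n)) then 0 else
        (1 / 2 : ℝ) ^ i.1 * (gv i.2 k).im)| ≤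
          (if k ∈ ({j} : Finset (Fin n)) then M else 2 * (1 / 2 : ℝ) ^ i.1)} with hB
  have hcov : PP K j m ∩ Qc n M ⊆ ⋃ i ∈ F, B i := by
    rintro z ⟨⟨w, hw, a, t, hz⟩, hzM⟩
    obtain ⟨i, hi, hwi⟩ := hF2 w hw
    refine mem_iUnion₂.2 ⟨i, hi, ?_⟩
    have hh : (0 : ℝ) < 2 ^ i.1 := by positivity
    have hkey : ∀ k, |(w k).re - (1 / 2 : ℝ) ^ i.1 * (gv i.2 k).re| ≤ 2 * (1 / 2 : ℝ) ^ i.1 ∧
        |(w k).im - (1 / 2 : ℝ) ^ i.1 * (gv i.2 k).im| ≤ 2 * (1 / 2 : ℝ) ^ i.1 := by
      intro k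
      have h1 := (norm_le_pi_norm ((2 : ℝ) ^ i.1 • w - gv i.2) k).trans hwi.le
      have h2 := (Complex.abs_re_le_norm _).trans h1
      have h3 := (Complex.abs_im_le_norm _).trans h1
      simp only [Pi.sub_apply, Pi.smul_apply, Complex.sub_re, Complex.sub_im, Complex.real_smul,
        Complex.mul_re, Complex.mul_im, ← Complex.ofReal_ofNat, ← Complex.ofReal_pow,
        Complex.ofReal_re, Complex.ofReal_im, zero_mul, sub_zero, add_zero] at h2 h3
      have e1 : (1 / 2 : ℝ) ^ i.1 * 2 ^ i.1 = 1 := by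
        rw [← mul_pow]; norm_num
      have e2 : ∀ x y : ℝ, |2 ^ i.1 * x - y| ≤ 2 →
          |x - (1 / 2 : ℝ) ^ i.1 * y| ≤ 2 * (1 / 2 : ℝ) ^ i.1 := by
        intro x y hxy
        have e3 : x - (1 / 2 : ℝ) ^ i.1 * y = (1 / 2 : ℝ) ^ i.1 * (2 ^ i.1 * x - y) := by
          rw [mul_sub, ← mul_assoc, e1, one_mul]
        rw [e3, abs_mul, abs_of_pos (by positivity : (0 : ℝ) < (1 / 2 : ℝ) ^ i.1)]
        have : (0 : ℝ) < (1 / 2 : ℝ) ^ i.1 := by positivity
        nlinarith
      exact ⟨e2 _ _ h2, e2 _ _ h3⟩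
    intro k
    have hzk : z k = w k + a * (if k = j then 1 else 0) + (t : ℂ) * (if k = m then 1 else 0) := by
      rw [hz]
      simp only [Pi.add_apply, Pi.smul_apply, ex, Pi.single_apply, smul_eq_mul, Complex.real_smul]
    by_cases hkj : k = j
    · subst hkj
      simp only [Finset.mem_insert, true_or, Finset.mem_singleton, if_true, sub_zero]
      exact hzM k
    · by_cases hkm : k = m
      · subst hkm
        simp only [Finset.mem_insert, or_true, Finset.mem_singleton, if_true, sub_zero, hkj, if_false]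
        refine ⟨(hzM k).1, ?_⟩
        have h5 : (z k).im = (w k).im := by
          rw [hzk]; simp [hkj]
        rw [h5]
        exact (hkey k).2
      · simp only [Finset.mem_insert, hkj, hkm, or_self, Finset.mem_singleton, if_false]
        have h5 : z k = w k := by
          rw [hzk]; simp [hkj, hkm]
        rw [h5]
        exact hkey k
  refine (measure_mono hcov).trans ((measure_biUnion_finset_le _ _).trans ?_)
  have hvol : ∀ i ∈ F, volume (B i) ≤ ENNReal.ofReal (C * ((1 / 2 : ℝ) ^ i.1) ^ (2 * n - 4)) := by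
    intro i hi
    have hle := (hF1 i hi).1
    have h0 : (0 : ℝ) ≤ (1 / 2 : ℝ) ^ i.1 := by positivity
    rw [hB, volume_boxes _ _ _ _ (fun k => by split_ifs <;> positivity)
      (fun k => by split_ifs <;> positivity)]
    apply ENNReal.ofReal_le_ofReal
    rw [Finset.prod_ite, Finset.prod_ite]
    have c1 : (Finset.univ.filter (fun k => k ∈ ({j, m} : Finset (Fin n)))).card = 2 := by
      rw [Finset.filter_mem_eq_inter, Finset.univ_inter, Finset.card_pair hjm]
    have c2 : (Finset.univ.filter (fun k => k ∉ ({j, m} : Finset (Fin n)))).card = n - 2 := by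
      rw [Finset.filter_notMem_eq_sdiff, Finset.card_sdiff, Finset.inter_univ, Finset.card_pair hjm,
        Finset.card_univ, Fintype.card_fin]
    have c3 : (Finset.univ.filter (fun k => k ∈ ({j} : Finset (Fin n)))).card = 1 := by
      rw [Finset.filter_mem_eq_inter, Finset.univ_inter, Finset.card_singleton]
    have c4 : (Finset.univ.filter (fun k => k ∉ ({j} : Finset (Fin n)))).card = n - 1 := by
      rw [Finset.filter_notMem_eq_sdiff, Finset.card_sdiff, Finset.inter_univ, Finset.card_singleton,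
        Finset.card_univ, Fintype.card_fin]
    rw [Finset.prod_const, Finset.prod_const, Finset.prod_const, Finset.prod_const, c1, c2, c3, c4,
      pow_one, hC]
    set x := (1 / 2 : ℝ) ^ i.1 with hx
    have e1 : (2 * n - 4) + 1 = (n - 2) + (n - 1) := by omega
    have e2 : x ^ (n - 2) * x ^ (n - 1) ≤ x ^ (2 * n - 4) := by
      rw [← pow_add, ← e1, pow_succ]
      exact mul_le_of_le_one_right (by positivity) hle
    calc 4 ^ n * (M ^ 2 * (2 * x) ^ (n - 2)) * (M * (2 * x) ^ (n - 1))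
        = 4 ^ n * (M ^ 2 * 2 ^ (n - 2)) * (M * 2 ^ (n - 1)) * (x ^ (n - 2) * x ^ (n - 1)) := by
          rw [mul_pow, mul_pow]; ring
      _ ≤ _ := by gcongr
  refine (Finset.sum_le_sum hvol).trans ?_
  rw [← ENNReal.ofReal_sum_of_nonneg (fun i _ => by positivity), ← Finset.mul_sum]
  apply ENNReal.ofReal_le_ofReal
  gcongr

lemma null_PP (hn : 3 ≤ n) {K : Set (EC n)} (hK : Negl K) {j m : Fin n} (hjm : j ≠ m) :
    volume (PP K j m) = 0 := by
  have h : PP K j m ⊆ ⋃ M : ℕ, PP K j m ∩ Qc n M := by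
    intro z hz
    obtain ⟨M, hM⟩ := exists_nat_ge ‖z‖
    refine mem_iUnion.2 ⟨M, hz, fun k => ?_⟩
    have h1 := (norm_le_pi_norm z k).trans hM
    exact ⟨(Complex.abs_re_le_norm _).trans h1, (Complex.abs_im_le_norm _).trans h1⟩
  refine measure_mono_null h (measure_iUnion_null fun M => ?_)
  exact null_box hn hK hjm M (Nat.cast_nonneg M)

/-- task S_NULL -/
theorem s_NULL : S_NULL := by
  intro n hn K hK
  refine ⟨?_, fun j m hjm => null_PP hn hK hjm⟩
  have hjm : (⟨0, by omega⟩ : Fin n) ≠ ⟨1, by omega⟩ := by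
    intro h; simp at h
  refine measure_mono_null ?_ (null_PP hn hK hjm)
  intro z hz
  exact ⟨z, hz, 0, 0, by simp⟩

end Pool.Agent.L7h89.RS
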